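import Mathlib
import Pool.Agent.Work.MP_e97a4d_nt.Defs
import Pool.Agent.Work.MP_e97a4d_nt.ExpDefs
import Pool.Agent.Work.MP_e97a4d_nt.UE.Defs
import Pool.Agent.Work.MP_e97a4d_nt.CT.RDefs
import Pool.Agent.Work.MP_e97a4d_nt.CT.SDefs
import Pool.Agent.Work.MP_e97a4d_nt.CT.WDefs
import Pool.Agent.Work.MP_e97a4d_nt.CT.SMain
import Pool.Agent.Work.MP_e97a4d_nt.CT.WMain

/-!
The Bombieri-Lang-Vojta equivalence for all schemes such that every subvariety outside the exceptional
set is swept out by the multiplicative group, or has a finite etale cover on which its functions are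
generated by invertible functions and constants, or which is a ramified cover of a torus with split
boundary; with an explicit family of such schemes in every dimension.
-/

set_option autoImplicit false

namespace Pool.Agent.Results.MP_e97a4d_nt.CoversOfTori

open AlgebraicGeometry CategoryTheory NumberField Pool.Agent.Work.MP_e97a4d_nt

/-- Let `V` be a scheme of finite type over `O_{F₀}` and `V'` a closed subscheme.

If every integral closed subscheme `Z` of the generic fibre of `V` which is not contained in `V'` is
swept out by the multiplicative group, or has a finite etale cover as in `CT.ToricGen`, then conditions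
(i) and (ii) are equivalent, and equivalent to the condition that every non-constant morphism
`𝔾_m ⟶ V_ℂ` has its image in `V'`.

`CT.ToricGen` holds for all `V` which are (for instance) locally closed in the radical cover
`x_j ^ m_j = h_j ^ m_j + g_j` of the `n`-dimensional torus, if among any nonzero vectors of `ℝ ^ n` with sum
zero there is one such that, for all `j`, the degree of `g_j` in its direction is smaller than that of
`h_j ^ m_j` and the zeros of the leading form of `h_j` on `V` (over `F₀`) outside `V'` have dimension at
most one. -/
theorem result {F₀ : Type} [Field F₀] [NumberField F₀] (σ : F₀ →+* ℂ) {V V' : Scheme.{0}}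
    (π : V ⟶ Spec (CommRingCat.of (𝓞 F₀))) [LocallyOfFiniteType π] [QuasiCompact π]
    (i : V' ⟶ V) [IsClosedImmersion i] :
    (CT.ToricGen σ π i → [CondI σ π i, CondII π i, CondGm σ π i].TFAE) ∧
      ∀ (n r : ℕ) (m : Fin r → ℕ) (h g : Fin r → CP.Laurent F₀ n) (q : V ⟶ CP.PowScheme m h g),
        (∀ j, m j ≠ 0) → q ≫ CP.powStr m h g = π → SurjectiveOnStalks q →
          CP.NewtonSplit π i q → CT.ToricGen σ π i :=
  ⟨fun hU => CT.blv_toric σ π i hU,
    fun _ _ m h g q hm hq _ hN => CP.toric_newton σ π i m hm h g q hq hN⟩

end Pool.Agent.Results.MP_e97a4d_nt.CoversOfTori
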