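import Mathlib
import Pool.Agent.Work.MP_e97a4d_nt.Quad5

set_option autoImplicit false

noncomputable section

namespace Pool.Agent.Results.MP_e97a4d_nt.QuadricComplements

open AlgebraicGeometry CategoryTheory NumberField MvPolynomial
open Pool.Agent.Work.MP_e97a4d_nt

/-- Complements of hyperplanes and quadrics are universal for the Bombieri-Lang-Vojta conjecture:
for every affine scheme `V` of finite type over the ring of integers and every closed subscheme
`V'` there is a finite set `E` of polynomials, each of degree at most one or of the form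
`X k - X i * X j`, such that (i) and (ii) for `(V, V')` are equivalent to (i) and (ii) for the
complement in affine space of the hypersurfaces `e = 1`, `e = -1`, `e ∈ E`, relative to a
coordinate hyperplane. Hence each of the two implications of the conjecture, for all affine `V` and
all `V'`, is equivalent to its special case of these complements. -/
theorem result {F₀ : Type} [Field F₀] [NumberField F₀] :
    (∀ (V V' : Scheme.{0}) [IsAffine V] (π : V ⟶ Spec (CommRingCat.of (𝓞 F₀)))
      [LocallyOfFiniteType π] (i : V' ⟶ V) [IsClosedImmersion i],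
      ∃ (N : ℕ) (E : Finset (MvPolynomial (Fin N) (𝓞 F₀))) (i₀ : Fin N),
        (∀ e ∈ E, e.totalDegree ≤ 1 ∨
          ∃ i j k : Fin N, e = (X k - X i * X j : MvPolynomial (Fin N) (𝓞 F₀))) ∧
        (∀ σ : F₀ →+* ℂ, CondI σ π i ↔ QuadI σ E i₀) ∧ (CondII π i ↔ QuadII E i₀)) ∧
    ∀ σ : F₀ →+* ℂ,
      ((∀ (V V' : Scheme.{0}) [IsAffine V] (π : V ⟶ Spec (CommRingCat.of (𝓞 F₀)))
        [LocallyOfFiniteType π] (i : V' ⟶ V) [IsClosedImmersion i], CondI σ π i → CondII π i) ↔
      (∀ (N : ℕ) (E : Finset (MvPolynomial (Fin N) (𝓞 F₀))) (i₀ : Fin N),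
        (∀ e ∈ E, e.totalDegree ≤ 1 ∨
          ∃ i j k : Fin N, e = (X k - X i * X j : MvPolynomial (Fin N) (𝓞 F₀))) →
        (QuadI σ E i₀ → QuadII E i₀))) ∧
      ((∀ (V V' : Scheme.{0}) [IsAffine V] (π : V ⟶ Spec (CommRingCat.of (𝓞 F₀)))
        [LocallyOfFiniteType π] (i : V' ⟶ V) [IsClosedImmersion i], CondII π i → CondI σ π i) ↔
      (∀ (N : ℕ) (E : Finset (MvPolynomial (Fin N) (𝓞 F₀))) (i₀ : Fin N),
        (∀ e ∈ E, e.totalDegree ≤ 1 ∨
          ∃ i j k : Fin N, e = (X k - X i * X j : MvPolynomial (Fin N) (𝓞 F₀))) →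
        (QuadII E i₀ → QuadI σ E i₀))) := by
  refine ⟨fun V V' _ π _ i _ => Quad.exists_quad π i, fun σ => ⟨⟨?_, ?_⟩, ⟨?_, ?_⟩⟩⟩
  · intro h N E i₀ _
    obtain ⟨V, V', _, π, _, i, _, h1, h2⟩ := Quad.exists_pair E i₀
    rw [← h1 σ, ← h2]
    exact h V V' π i
  · intro h V V' _ π _ i _
    obtain ⟨N, E, i₀, hE, h1, h2⟩ := Quad.exists_quad π i
    rw [h1 σ, h2]
    exact h N E i₀ hE
  · intro h N E i₀ _
    obtain ⟨V, V', _, π, _, i, _, h1, h2⟩ := Quad.exists_pair E i₀
    rw [← h1 σ, ← h2]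
    exact h V V' π i
  · intro h V V' _ π _ i _
    obtain ⟨N, E, i₀, hE, h1, h2⟩ := Quad.exists_quad π i
    rw [h1 σ, h2]
    exact h N E i₀ hE

end Pool.Agent.Results.MP_e97a4d_nt.QuadricComplements
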