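import Mathlib
import Pool.Agent.Work.MP_e97a4d_nt.Hyp.Final
import Pool.Agent.Work.MP_e97a4d_nt.Hyp.Final0b

set_option autoImplicit false

noncomputable section

namespace Pool.Agent.Results.MP_e97a4d_nt.SmoothHypersurfaces

open AlgebraicGeometry CategoryTheory NumberField
open Pool.Agent.Work.MP_e97a4d_nt Pool.Agent.Work.MP_e97a4d_nt.Sep
open Pool.Agent.Work.MP_e97a4d_nt.Hyp

/-- The Bombieri-Lang-Vojta equivalence for all schemes of finite type, and its half (i) => (ii), are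
equivalent to their cases for smooth hypersurfaces of arbitrarily large degree; the same inside the class
of proper schemes (`s = m`), and, for the half (i) => (ii), inside the classes of quasi-projective and
projective (`s = m`) schemes with empty exceptional set. -/
theorem result (F₀ : Type) [Field F₀] [NumberField F₀] (σ : F₀ →+* ℂ) (Δ : ℕ → ℕ) :
    -- all `V` of finite type, all closed `V'`
    ((∀ (V V' : Scheme.{0}) (π : V ⟶ Spec (CommRingCat.of (𝓞 F₀))) (i : V' ⟶ V),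
        LocallyOfFiniteType π → QuasiCompact π → IsClosedImmersion i → CondI σ π i → CondII π i) ↔
      ∀ (m s : ℕ) (f : MvPolynomial (Fin (m + 1)) (𝓞 F₀)), IsGood σ Δ m s f →
        CurveCond σ s f → PointCond s f) ∧
    ((∀ (V V' : Scheme.{0}) (π : V ⟶ Spec (CommRingCat.of (𝓞 F₀))) (i : V' ⟶ V),
        LocallyOfFiniteType π → QuasiCompact π → IsClosedImmersion i → (CondI σ π i ↔ CondII π i)) ↔
      ∀ (m s : ℕ) (f : MvPolynomial (Fin (m + 1)) (𝓞 F₀)), IsGood σ Δ m s f →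
        (CurveCond σ s f ↔ PointCond s f)) ∧
    -- all proper `V`, all closed `V'`
    ((∀ (V V' : Scheme.{0}) (π : V ⟶ Spec (CommRingCat.of (𝓞 F₀))) (i : V' ⟶ V),
        IsProper π → IsClosedImmersion i → CondI σ π i → CondII π i) ↔
      ∀ (m : ℕ) (f : MvPolynomial (Fin (m + 1)) (𝓞 F₀)), IsGood σ Δ m m f →
        CurveCond σ m f → PointCond m f) ∧
    ((∀ (V V' : Scheme.{0}) (π : V ⟶ Spec (CommRingCat.of (𝓞 F₀))) (i : V' ⟶ V),
        IsProper π → IsClosedImmersion i → (CondI σ π i ↔ CondII π i)) ↔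
      ∀ (m : ℕ) (f : MvPolynomial (Fin (m + 1)) (𝓞 F₀)), IsGood σ Δ m m f →
        (CurveCond σ m f ↔ PointCond m f)) ∧
    -- `V' = ∅`: all `V` closed in the complement of a linear subspace of a projective space
    ((∀ (m s : ℕ) (V : Scheme.{0}) (j : V ⟶ (linCompl F₀ m s).toScheme), s ≤ m →
        IsClosedImmersion j → NoCurve σ (j ≫ (linCompl F₀ m s).ι ≫ psStr F₀ m) →
        FinPts (j ≫ (linCompl F₀ m s).ι ≫ psStr F₀ m)) ↔
      ∀ (m s : ℕ) (f : MvPolynomial (Fin (m + 1)) (𝓞 F₀)), IsGood0 σ Δ m s f →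
        CurveCond0 σ s f → PointCond0 s f) ∧
    -- `V' = ∅`: all projective `V`
    ((∀ (m : ℕ) (V : Scheme.{0}) (k : V ⟶ PS F₀ m), IsClosedImmersion k →
        NoCurve σ (k ≫ psStr F₀ m) → FinPts (k ≫ psStr F₀ m)) ↔
      ∀ (m : ℕ) (f : MvPolynomial (Fin (m + 1)) (𝓞 F₀)), IsGood0 σ Δ m m f →
        CurveCond0 σ m f → PointCond0 m f) := by
  obtain ⟨h1, h2, h3, h4⟩ := final F₀ σ Δ
  obtain ⟨h5, h6, -⟩ := final0' F₀ σ Δ
  exact ⟨h1, h2, h3, h4, h5, h6⟩

end Pool.Agent.Results.MP_e97a4d_nt.SmoothHypersurfaces
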