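import Mathlib
import Pool.Agent.Work.MP_e97a4d_nt.Defs
import Pool.Agent.Work.MP_e97a4d_nt.ExpDefs
import Pool.Agent.Work.MP_e97a4d_nt.ExpMain
import Pool.Agent.Work.MP_e97a4d_nt.ChMainDefs
import Pool.Agent.Work.MP_e97a4d_nt.ChMain
import Pool.Agent.Work.MP_e97a4d_nt.ChFin
import Pool.Agent.Work.MP_e97a4d_nt.ChConv
import Pool.Agent.Work.MP_e97a4d_nt.LwDefs
import Pool.Agent.Work.MP_e97a4d_nt.LwCurve
import Pool.Agent.Work.MP_e97a4d_nt.LwExp
import Pool.Agent.Work.MP_e97a4d_nt.CtDefs
import Pool.Agent.Work.MP_e97a4d_nt.Ct4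
import Pool.Agent.Work.MP_e97a4d_nt.Ct5
import Pool.Agent.Work.MP_e97a4d_nt.UP.Defs
import Pool.Agent.Work.MP_e97a4d_nt.UP.Main

/-!
The two conditions of the Bombieri-Lang-Vojta conjecture, restricted to unit curves and linear curves
on one side and to unit points and linear recurrences on the other side, are equivalent for all schemes;
and they are equivalent to a uniform bound for the number of points on linear walks.
-/

set_option autoImplicit false

namespace Pool.Agent.Results.MP_e97a4d_nt.UnitsAndWalks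

open AlgebraicGeometry CategoryTheory NumberField Pool.Agent.Work.MP_e97a4d_nt
  Pool.Agent.Work.MP_e97a4d_nt.Chain

/-- There is a function `C` such that for all `V` separated of finite type over `O_{F₀}` and all closed
subschemes `V'`: condition (i) implies its restrictions `CondIunit` to unit curves and `CondIlin` to
linear entire curves, condition (ii) implies its restrictions `CondIIunit` to unit points and
`CondIIrec` to linear recurrences, and these four restricted conditions are equivalent to each other,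
to the uniform bound `CondCount C` for the number of points on linear walks, and to the condition that
every non-constant morphism `𝔾_m ⟶ V_ℂ` has its image in `V'`. -/
theorem result : ∃ C : ℕ → ℕ → ℕ, ∀ {F₀ : Type} [Field F₀] [NumberField F₀] (σ : F₀ →+* ℂ)
    {V V' : Scheme.{0}} (π : V ⟶ Spec (CommRingCat.of (𝓞 F₀))) [IsSeparated π]
    [LocallyOfFiniteType π] [QuasiCompact π] (i : V' ⟶ V) [IsClosedImmersion i],
    (CondI σ π i → CondIunit σ π i ∧ CondIlin σ π i) ∧
      (CondII π i → CondIIunit π i ∧ CondIIrec π i) ∧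
      [CondIunit σ π i, CondIlin σ π i, CondIIunit π i, CondIIrec π i, CondCount C σ π i,
        CondGm σ π i].TFAE := by
  obtain ⟨C, hC⟩ := exists_constants_count
  refine ⟨C, fun σ V V' π _ _ _ i _ => ?_⟩
  obtain ⟨-, h2, h3⟩ := blv_exp σ π i
  obtain ⟨u1, u2, u3⟩ := unit_tfae σ π i
  refine ⟨fun h => ⟨u1 h, fun f hf _ => h f hf⟩, fun h => ⟨u2 h, h2 h⟩, ?_⟩
  have h13 : CondIexp σ π i ↔ CondGm σ π i := h3.out 0 2
  tfae_have 1 ↔ 6 := u3.out 0 2
  tfae_have 3 ↔ 6 := u3.out 1 2
  tfae_have 4 ↔ 6 := h3.out 1 2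
  tfae_have 6 → 2 := condIlin_of_condGm σ π i
  tfae_have 2 → 6 := fun h => h13.1 (condIexp_of_condIlin σ π i h)
  tfae_have 6 → 5 := fun h => hC σ π i (h13.2 h)
  tfae_have 5 → 6 := fun h => condGm_of_condIIwalk σ π i (condIIwalk_of_condCount _ σ π i h)
  tfae_finish

end Pool.Agent.Results.MP_e97a4d_nt.UnitsAndWalks
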